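import Pool.Agent.X171.Det.Main

/-!
# The compact interval has no detecting group, of any cardinality

For every regularity `k ∈ {1, 2, …, ∞}` and every group `G` (finitely generated, countable or
arbitrary), `G` is not a `C^k` detecting group for the compact interval `[-1,1]`: if `G` acts
faithfully by `C^k` diffeomorphisms on the interval, then it also acts faithfully by `C^k`
diffeomorphisms on the circle.
-/

set_option autoImplicit false

open Set
open scoped Manifold ContDiff

namespace Pool.Agent.Results.MP_c1d873_al.IntervalUndetectable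

/-- `G` acts faithfully by `C^k` diffeomorphisms on `N`: there is an injective homomorphism from
`G` to the group of self-bijections of `N` whose values are of class `C^k` (the inverse of
the diffeomorphism attached to `g` is the one attached to `g⁻¹`, so it is of class `C^k` too). -/
def ActsFaithfully (k : ℕ∞) (n : ℕ) [NeZero n] (G : Type*) [Group G] (N : Type)
    [TopologicalSpace N] [ChartedSpace (EuclideanHalfSpace n) N] : Prop :=
  ∃ ρ : G →* Equiv.Perm N, Function.Injective ρ ∧
    ∀ g : G, ContMDiff (𝓡∂ n) (𝓡∂ n) (k : WithTop ℕ∞) (ρ g)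

/-- `G` is a `C^k` detecting group for the compact connected smooth `n`-manifold `M` (boundary
allowed). -/
def IsDetecting (k : ℕ∞) (n : ℕ) [NeZero n] (G : Type*) [Group G] (M : Type)
    [TopologicalSpace M] [ChartedSpace (EuclideanHalfSpace n) M] : Prop :=
  ∀ (N : Type) [TopologicalSpace N] [T2Space N] [CompactSpace N] [ConnectedSpace N]
    [ChartedSpace (EuclideanHalfSpace n) N] [IsManifold (𝓡∂ n) ∞ N],
    ActsFaithfully k n G N ↔
      Nonempty (Diffeomorph (𝓡∂ n) (𝓡∂ n) M N (k : WithTop ℕ∞))

instance : Fact ((-1 : ℝ) < 1) := ⟨by norm_num⟩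

/-- No group whatsoever is a `C^k` detecting group for the interval `[-1,1]`. -/
theorem result (k : ℕ∞) (hk : 1 ≤ k) (G : Type*) [Group G] :
    ¬ IsDetecting k 1 G (Icc (-1 : ℝ) 1) :=
  fun h => Pool.Agent.X171.Det.not_detecting k hk G h

end Pool.Agent.Results.MP_c1d873_al.IntervalUndetectable
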